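import Pool.Agent.N977.P.Stm

/-!
# Project NSP (helper977), part MODB (subtask 7364), by helper456: the evolution of the Fourier
coefficients without the packets (after `bn_deriv` of Pool.Agent.N977.S.Mode2)
-/

set_option autoImplicit false
set_option linter.all false

open MeasureTheory Set Filter Topology
open scoped ContDiff ComplexConjugate

namespace Pool.Agent.N456.NSP

open H459R3.NS Pool.Agent.N977.Q Pool.Agent.N977.S Pool.Agent.N977.P
open Pool.Agent.N977.K (SolK cmp)

variable {J : ℕ → ℕ} {G : Fin 2 → ℕ → K3 → ℝ} {ν T : ℝ} {u : ℝ → V → V} {q : ℝ → V → ℝ}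
  {K : (V → V) → (V → V) → V → V}

/-! ### the right hand side -/

theorem rhs_cont' {v : V → V} (hv : SPV v) {P : V → ℝ} (hP : SP P) (hK : SPV (K v v)) (i : Fin 3) :
    Continuous (rhs ν K v P i) :=
  (((continuous_const.mul (spv_sp hv i).lap.cont).sub (sp_conv (spv_sp hv) i).cont).sub
    (hP.pd i).cont).add (spv_sp hK i).cont

theorem fr_rhs' {v : V → V} (hv : SPV v) {P : V → ℝ} (hP : SP P) (hK : SPV (K v v)) (i : Fin 3)
    (k : K3) : fr (rhs ν K v P i) k
      = -(ν * ((2 * Real.pi) ^ 2 * len k ^ 2) : ℝ) * fr (fun x => v x i) k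
      - fr (conv (fun i y => v y i) i) k - 2 * Real.pi * Complex.I * (k i : ℂ) * fr P k
      + fr (fun x => K v v x i) k := by
  have c1 : Continuous fun x => ν * lap (fun y => v y i) x :=
    continuous_const.mul (spv_sp hv i).lap.cont
  have c2 : Continuous fun x => ν * lap (fun y => v y i) x - conv (fun i y => v y i) i x :=
    c1.sub (sp_conv (spv_sp hv) i).cont
  have c3 : Continuous fun x => ν * lap (fun y => v y i) x
    - conv (fun i y => v y i) i x - pd i P x := c2.sub (hP.pd i).cont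
  have e : rhs ν K v P i = fun x => (ν * lap (fun y => v y i) x
    - conv (fun i y => v y i) i x - pd i P x) + K v v x i := rfl
  rw [e, fr_add c3 (spv_sp hK i).cont, fr_sub c2 (hP.pd i).cont,
    fr_sub c1 (sp_conv (spv_sp hv) i).cont, fr_smul, fr_lap (spv_sp hv i), fr_pd' hP]
  push_cast
  ring

theorem bnp_nonneg (v : V → V) (k : K3) : 0 ≤ bnp G v k := Real.sqrt_nonneg _

theorem bnp_sq (v : V → V) (k : K3) : bnp G v k ^ 2 = ∑ i, ‖cwp G v k i‖ ^ 2 :=
  Real.sq_sqrt (Finset.sum_nonneg fun _ _ => sq_nonneg _)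

theorem re_le_bnp (v : V → V) (k : K3) (i : Fin 3) : |(cwp G v k i).re| ≤ bnp G v k := by
  refine (Complex.abs_re_le_norm _).trans ?_
  apply Real.le_sqrt_of_sq_le
  exact Finset.single_le_sum (f := fun i => ‖cwp G v k i‖ ^ 2)
    (fun i _ => sq_nonneg _) (Finset.mem_univ i)

/-! ### the derivative -/

theorem gen (hs : SolK ν T K u q) {t : ℝ} (ht : t ∈ Ioo 0 T) (hK : SPV (K (u t) (u t)))
    (hK0 : ∀ i, i ≠ 2 → ∀ x, K (u t) (u t) x i = 0) {k : K3} {κK : ℝ}
    (hKk : fr (fun x => K (u t) (u t) x 2) k = (κK : ℂ)) {γ : ℝ → ℝ} {γ' : ℝ}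
    (hγ : HasDerivAt γ γ' t)
    (hc : ∀ s i, cwp G (u s) k i = fr (fun x => u s x i) k - (if i = 2 then (γ s : ℂ) else 0))
    (hk : k 2 = 0 ∨ γ t = 0) :
    HasDerivAt (fun s => bnp G (u s) k ^ 2)
      (-(2 * (ν * (2 * Real.pi) ^ 2 * len k ^ 2)) * bnp G (u t) k ^ 2 +
        2 * (-(∑ i, conj (cwp G (u t) k i) * fr (conv (fun i y => u t y i) i) k).re +
          (-(ν * (2 * Real.pi) ^ 2 * len k ^ 2) * γ t + κK - γ') * (cwp G (u t) k 2).re)) t := by
  have htI := Ioo_subset_Ico_self ht
  have hUs : SPV (u t) := sol_spv hs htI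
  have hq := sol_sp_p hs htI
  set g : Fin 3 → V → ℝ := rhs ν K (u t) (q t) with hg
  have hgc : ∀ i, Continuous (g i) := fun i => rhs_cont' hUs hq hK i
  have hd : ∀ i x, HasDerivAt (fun s => u s x i) (g i x) t := fun i x =>
    sol_hasDerivAt hs ht i x
  have h1 : ∀ i, HasDerivAt (fun s => ‖cwp G (u s) k i‖ ^ 2)
      (2 * (conj (cwp G (u t) k i) * fr (g i) k).re -
        (if i = 2 then 2 * γ' * (cwp G (u t) k 2).re else 0)) t := by
    intro i
    by_cases hi : i = 2
    · subst hi
      rw [if_pos rfl]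
      have e : (fun s => ‖cwp G (u s) k 2‖ ^ 2) = fun s =>
          ((fr (fun x => u s x 2) k).re - γ s) ^ 2 + (fr (fun x => u s x 2) k).im ^ 2 := by
        funext s
        rw [hc, if_pos rfl, Complex.sq_norm, Complex.normSq_apply, Complex.sub_re, Complex.sub_im,
          Complex.ofReal_re, Complex.ofReal_im, sub_zero]
        ring
      rw [e]
      have d1 := ((re_deriv (f := fun s x => u s x 2) (smooth_c hs 2) ht (hd 2) (hgc 2) k).sub
        hγ).pow 2
      have d2 := (im_deriv (f := fun s x => u s x 2) (smooth_c hs 2) ht (hd 2) (hgc 2) k).pow 2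
      refine (d1.add d2).congr_deriv ?_
      rw [hc, if_pos rfl]
      simp only [Complex.mul_re, Complex.conj_re, Complex.conj_im, Complex.sub_re, Complex.sub_im,
        Complex.ofReal_re, Complex.ofReal_im, Pi.sub_apply]
      push_cast
      ring
    · rw [if_neg hi, sub_zero]
      have e : ∀ s, cwp G (u s) k i = fr (fun x => u s x i) k := fun s => by
        rw [hc, if_neg hi, sub_zero]
      simp only [e]
      exact fr_deriv (f := fun s x => u s x i) (smooth_c hs i) ht (hd i) (hgc i) k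
  have h2 := HasDerivAt.fun_sum (u := Finset.univ) fun i (_ : i ∈ Finset.univ) => h1 i
  have e0 : (fun s => bnp G (u s) k ^ 2) = fun s => ∑ i, ‖cwp G (u s) k i‖ ^ 2 :=
    funext fun s => bnp_sq _ _
  rw [e0]
  refine h2.congr_deriv ?_
  -- the pressure
  have e3 : ∑ i, (k i : ℂ) * conj (cwp G (u t) k i) = 0 := by
    have e4 := sum_k_fr hUs (hs.divfree t htI) k
    have e5 : ∑ i, (k i : ℂ) * conj (cwp G (u t) k i)
        = conj (∑ i, (k i : ℂ) * fr (fun x => u t x i) k) := by
      rw [map_sum]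
      refine Finset.sum_congr rfl fun i _ => ?_
      rw [map_mul, map_intCast]
      by_cases hi : i = 2
      · subst hi
        rcases hk with hk | hk
        · rw [hk]
          simp
        · rw [hc, if_pos rfl, hk]
          simp
      · rw [hc, if_neg hi, sub_zero]
    rw [e5, e4, map_zero]
  have e7 : ∀ i, (conj (cwp G (u t) k i) * fr (fun x => u t x i) k).re = ‖cwp G (u t) k i‖ ^ 2 +
      (if i = 2 then γ t * (cwp G (u t) k 2).re else 0) := by
    intro i
    have e8 : fr (fun x => u t x i) k = cwp G (u t) k i + (if i = 2 then (γ t : ℂ) else 0) := by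
      rw [hc]
      ring
    rw [e8, Complex.sq_norm, Complex.normSq_apply]
    by_cases hi : i = 2
    · subst hi
      rw [if_pos rfl, if_pos rfl]
      simp only [Complex.mul_re, Complex.conj_re, Complex.conj_im, Complex.add_re, Complex.add_im,
        Complex.ofReal_re, Complex.ofReal_im]
      ring
    · rw [if_neg hi, if_neg hi]
      simp only [Complex.mul_re, Complex.conj_re, Complex.conj_im, add_zero]
      ring
  have e6 : ∀ i, (conj (cwp G (u t) k i) * fr (fun x => K (u t) (u t) x i) k).re =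
      (if i = 2 then κK * (cwp G (u t) k 2).re else 0) := by
    intro i
    by_cases hi : i = 2
    · subst hi
      rw [hKk, if_pos rfl]
      simp only [Complex.mul_re, Complex.conj_re, Complex.conj_im, Complex.ofReal_re,
        Complex.ofReal_im]
      ring
    · have e9 : (fun x => K (u t) (u t) x i) = fun _ => (0 : ℝ) := funext fun x => hK0 i hi x
      rw [e9, if_neg hi]
      have : fr (fun _ => (0 : ℝ)) k = 0 := by unfold fr fc; simp
      rw [this]
      simp
  have e8 : ∀ i, (conj (cwp G (u t) k i) * fr (g i) k).re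
      = -(ν * ((2 * Real.pi) ^ 2 * len k ^ 2)) * ‖cwp G (u t) k i‖ ^ 2
        - (conj (cwp G (u t) k i) * fr (conv (fun i y => u t y i) i) k).re
        - (2 * Real.pi * Complex.I * fr (q t) k * ((k i : ℂ) * conj (cwp G (u t) k i))).re
        + (if i = 2 then (-(ν * ((2 * Real.pi) ^ 2 * len k ^ 2)) * γ t + κK) *
          (cwp G (u t) k 2).re else 0) := by
    intro i
    have a1 : conj (cwp G (u t) k i) * fr (g i) k
        = (-(ν * ((2 * Real.pi) ^ 2 * len k ^ 2)) : ℝ)
          * (conj (cwp G (u t) k i) * fr (fun x => u t x i) k)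
        - conj (cwp G (u t) k i) * fr (conv (fun i y => u t y i) i) k
        - 2 * Real.pi * Complex.I * fr (q t) k * ((k i : ℂ) * conj (cwp G (u t) k i))
        + conj (cwp G (u t) k i) * fr (fun x => K (u t) (u t) x i) k := by
      rw [hg, fr_rhs' hUs hq hK]
      push_cast
      ring
    rw [a1, Complex.add_re, Complex.sub_re, Complex.sub_re, Complex.re_ofReal_mul, e6, e7]
    by_cases hi : i = 2
    · simp only [if_pos hi]
      ring
    · simp only [if_neg hi]
      ring
  simp_rw [e8]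
  rw [Finset.sum_sub_distrib, ← Finset.mul_sum, Finset.sum_add_distrib, Finset.sum_sub_distrib,
    Finset.sum_sub_distrib, ← Finset.mul_sum,
    ← Complex.re_sum, ← Complex.re_sum, ← Finset.mul_sum, e3, mul_zero, Complex.zero_re, ← bnp_sq,
    Finset.sum_ite_eq' Finset.univ (2 : Fin 3), Finset.sum_ite_eq' Finset.univ (2 : Fin 3),
    if_pos (Finset.mem_univ _), if_pos (Finset.mem_univ _)]
  ring

theorem conv_bnp (hs : SolK ν T K u q) {t : ℝ} (ht : t ∈ Ioo 0 T) (k : K3) :
    |-(∑ i, conj (cwp G (u t) k i) * fr (conv (fun i y => u t y i) i) k).re| ≤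
      bnp G (u t) k * (2 * Real.pi * len k * cv (un (u t)) (un (u t)) k) := by
  have htI := Ioo_subset_Ico_self ht
  have hUs : SPV (u t) := sol_spv hs htI
  rw [abs_neg]
  refine (Complex.abs_re_le_norm _).trans ?_
  refine (conv_le hUs (hs.divfree t htI) (fun i => conj (cwp G (u t) k i)) k).trans (le_of_eq ?_)
  simp only [Complex.norm_conj]
  rfl

/-! ### the packets -/

theorem pk_zero (hP : Pk J G) {e e' : Fin 2} {n n' : ℕ} {k : K3} (h : G e n k ≠ 0)
    (h' : ¬ (e' = e ∧ n' = n)) : G e' n' k = 0 := by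
  by_contra hc
  exact h' (hP.disj e' n' e n k hc h)

theorem tsum_pk (hP : Pk J G) {e : Fin 2} {n : ℕ} {k : K3} (h : G e n k ≠ 0)
    (c : Fin 2 → ℕ → ℝ) : ∑' m, (G 0 m k * c 0 m + G 1 m k * c 1 m) = G e n k * c e n := by
  rw [tsum_eq_single n (fun m hm => by
    rw [pk_zero hP h (fun h' => hm h'.2), pk_zero hP h (fun h' => hm h'.2)]
    simp)]
  have h01 : e = 0 ∨ e = 1 := by omega
  rcases h01 with rfl | rfl
  · rw [pk_zero hP h (e' := 1) (fun h' => by simpa using h'.1)]
    ring
  · rw [pk_zero hP h (e' := 0) (fun h' => by simpa using h'.1)]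
    ring

theorem am_sum (hP : Pk J G) (e : Fin 2) (n : ℕ) (v : V → V) :
    am (G e n) v = ∑ l ∈ (hP.fin e n).toFinset, G e n l * (fr (fun x => v x 2) l).re := by
  unfold am
  apply tsum_eq_sum
  intro l hl
  have : G e n l = 0 := by
    by_contra hc
    exact hl ((hP.fin e n).mem_toFinset.2 hc)
  rw [this, zero_mul]

theorem modb : S_MODB := by
  intro hOP J G α μ hP hGa ν T u q hν hs t ht
  obtain ⟨hop1, -, hop3⟩ := hOP J G α μ hP hGa
  have htI := Ioo_subset_Ico_self ht
  have hUs : SPV (u t) := sol_spv hs htI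
  have hq := sol_sp_p hs htI
  have hKs : SPV (KP G α μ (u t) (u t)) := hop1 _ _ hUs hUs
  have hK0 : ∀ i, i ≠ 2 → ∀ x, KP G α μ (u t) (u t) x i = 0 := by
    intro i hi x
    unfold KP
    rw [if_neg hi]
  have hK2 : ∀ k, fr (fun x => KP G α μ (u t) (u t) x 2) k =
      ((∑' n, (cXp G α (u t) (u t) n * G 0 n k + cYp G α μ (u t) (u t) n * G 1 n k) : ℝ) : ℂ) := by
    intro k
    have e : (fun x => KP G α μ (u t) (u t) x 2) = kp G α μ (u t) (u t) := by
      funext x
      unfold KP
      rw [if_pos rfl]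
    rw [e]
    exact hop3 _ _ hUs hUs k
  refine ⟨fun k hk => ?_, fun e n k hk => ?_⟩
  · -- the frequencies outside of the packets
    refine ⟨_, conv_bnp hs ht k, ?_⟩
    have hKk : fr (fun x => KP G α μ (u t) (u t) x 2) k = ((0 : ℝ) : ℂ) := by
      rw [hK2]
      congr 1
      simp only [hk, mul_zero, add_zero, tsum_zero]
    have h1 := gen (G := G) hs ht hKs hK0 hKk (γ := fun _ => 0) (γ' := 0)
      (hasDerivAt_const t (0 : ℝ)) (fun s i => by
        unfold cwp
        simp only [hk, zero_mul, add_zero, tsum_zero]) (Or.inr rfl)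
    refine h1.congr_deriv ?_
    ring
  · -- the packets
    have hk2 : k 2 = 0 := hP.hor e n k hk
    obtain ⟨κ, hκ⟩ : ∃ κ : ℝ, κ = ν * (2 * Real.pi) ^ 2 := ⟨_, rfl⟩
    have hκ0 : 0 ≤ κ := by rw [hκ]; positivity
    obtain ⟨cc, hcc⟩ : ∃ cc : Fin 2 → ℕ → ℝ, cc = fun e n =>
      if e = 0 then cXp G α (u t) (u t) n else cYp G α μ (u t) (u t) n := ⟨_, rfl⟩
    have hKk : ∀ l, G e n l ≠ 0 →
        fr (fun x => KP G α μ (u t) (u t) x 2) l = ((G e n l * cc e n : ℝ) : ℂ) := by
      intro l hl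
      rw [hK2, ← tsum_pk hP hl cc]
      congr 1
      apply tsum_congr
      intro m
      rw [hcc]
      simp only [if_true, one_ne_zero, if_false]
      ring
    set g : V → ℝ := rhs ν (KP G α μ) (u t) (q t) 2 with hg
    have hgc : Continuous g := rhs_cont' hUs hq hKs 2
    have hd : ∀ x, HasDerivAt (fun s => u s x 2) (g x) t := fun x => sol_hasDerivAt hs ht 2 x
    -- the amplitude
    have hA : HasDerivAt (fun s => am (G e n) (u s))
        (∑ l ∈ (hP.fin e n).toFinset, G e n l * (fr g l).re) t := by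
      have h1 : (fun s => am (G e n) (u s)) = fun s =>
          ∑ l ∈ (hP.fin e n).toFinset, G e n l * (fr (fun x => u s x 2) l).re :=
        funext fun s => am_sum hP e n (u s)
      rw [h1]
      exact HasDerivAt.fun_sum fun l _ =>
        (re_deriv (f := fun s x => u s x 2) (smooth_c hs 2) ht hd hgc l).const_mul (G e n l)
    obtain ⟨F, hF⟩ : ∃ F : Finset K3, F = (hP.fin e n).toFinset := ⟨_, rfl⟩
    have hFm : ∀ l, l ∈ F ↔ G e n l ≠ 0 := by
      intro l
      rw [hF, Set.Finite.mem_toFinset]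
      rfl
    rw [← hF] at hA
    have hcw : ∀ (s : ℝ) (l : K3), G e n l ≠ 0 → ∀ i, cwp G (u s) l i =
        fr (fun x => u s x i) l - (if i = 2 then ((G e n l * am (G e n) (u s) : ℝ) : ℂ) else 0) := by
      intro s l hl i
      unfold cwp
      rw [tsum_pk hP hl fun e n => am (G e n) (u s)]
    -- abbreviations
    obtain ⟨x, hx⟩ : ∃ x : ℝ, x = am (G e n) (u t) := ⟨_, rfl⟩
    obtain ⟨Q, hQ⟩ : ∃ Q : ℝ, Q = len (qq e n) ^ 2 := ⟨_, rfl⟩
    obtain ⟨w, hw⟩ : ∃ w : ℝ, w = Mn 8 n * ((J n : ℝ) - 1) := ⟨_, rfl⟩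
    have hw0 : 0 ≤ w := by
      rw [hw]
      have : (1 : ℝ) ≤ J n := by exact_mod_cast hP.J1 n
      have h2 : (0 : ℝ) ≤ (J n : ℝ) - 1 := by linarith
      positivity
    obtain ⟨cv2, hcv2⟩ : ∃ cv2 : K3 → ℂ, cv2 = fun l => fr (conv (fun i y => u t y i) 2) l := ⟨_, rfl⟩
    have hre : ∀ l ∈ F, (fr (fun x => u t x 2) l).re = (cwp G (u t) l 2).re + G e n l * x := by
      intro l hl
      rw [hcw t l ((hFm l).1 hl) 2, if_pos rfl, Complex.sub_re, Complex.ofReal_re, hx]
      ring
    have hgl : ∀ l ∈ F, (fr g l).re = -(κ * len l ^ 2) * ((cwp G (u t) l 2).re + G e n l * x)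
        - (cv2 l).re + G e n l * cc e n := by
      intro l hl
      have hl' := (hFm l).1 hl
      rw [← hre l hl, hg, fr_rhs' hUs hq hKs, hP.hor e n l hl', hKk l hl', Complex.add_re,
        Complex.sub_re, Complex.sub_re, Complex.ofReal_re, ← Complex.ofReal_neg,
        Complex.re_ofReal_mul, hκ, hcv2]
      simp only [Int.cast_zero, mul_zero, zero_mul, Complex.zero_re]
      ring
    -- the sum of the squares
    have hsq : ∑ l ∈ F, G e n l ^ 2 = 1 := by
      rw [← hP.sq e n]
      symm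
      apply tsum_eq_sum
      intro l hl
      have : G e n l = 0 := by
        by_contra hc
        exact hl ((hFm l).2 hc)
      rw [this]
      norm_num
    have hxs : x = ∑ l ∈ F, G e n l * (fr (fun x => u t x 2) l).re := by
      rw [hx, am_sum hP, hF]
    have hS0 : ∑ l ∈ F, G e n l * (cwp G (u t) l 2).re = 0 := by
      have h1 : ∑ l ∈ F, G e n l * (fr (fun x => u t x 2) l).re =
          ∑ l ∈ F, G e n l * (cwp G (u t) l 2).re + ∑ l ∈ F, G e n l ^ 2 * x := by
        rw [← Finset.sum_add_distrib]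
        refine Finset.sum_congr rfl fun l hl => ?_
        rw [hre l hl]
        ring
      rw [← hxs, ← Finset.sum_mul, hsq] at h1
      linarith
    obtain ⟨S1, hS1⟩ : ∃ S1 : ℝ, S1 = ∑ l ∈ F, G e n l ^ 2 * len l ^ 2 := ⟨_, rfl⟩
    obtain ⟨S2, hS2⟩ : ∃ S2 : ℝ, S2 = ∑ l ∈ F, G e n l * (len l ^ 2 - Q) * (cwp G (u t) l 2).re :=
      ⟨_, rfl⟩
    obtain ⟨S3, hS3⟩ : ∃ S3 : ℝ, S3 = ∑ l ∈ F, G e n l * (cv2 l).re := ⟨_, rfl⟩
    have hA' : ∑ l ∈ F, G e n l * (fr g l).re = -(κ * (S2 + x * S1)) - S3 + cc e n := by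
      have h1 : ∑ l ∈ F, G e n l * (fr g l).re =
          -κ * (∑ l ∈ F, G e n l * (len l ^ 2 - Q) * (cwp G (u t) l 2).re) +
          -κ * Q * (∑ l ∈ F, G e n l * (cwp G (u t) l 2).re) +
          -κ * x * (∑ l ∈ F, G e n l ^ 2 * len l ^ 2) + -1 * (∑ l ∈ F, G e n l * (cv2 l).re) +
          cc e n * (∑ l ∈ F, G e n l ^ 2) := by
        simp only [Finset.mul_sum]
        rw [← Finset.sum_add_distrib, ← Finset.sum_add_distrib, ← Finset.sum_add_distrib,
          ← Finset.sum_add_distrib]
        refine Finset.sum_congr rfl fun l hl => ?_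
        rw [hgl l hl]
        ring
      rw [h1, hS0, hsq, ← hS1, ← hS2, ← hS3]
      ring
    -- the bound of the remainder
    obtain ⟨R, hR⟩ : ∃ R : ℝ, R = κ * x * (S1 - len k ^ 2) + κ * S2 + S3 := ⟨_, rfl⟩
    have hnear : ∀ l ∈ F, |len l ^ 2 - Q| ≤ 7 * w := by
      intro l hl
      rw [hQ, hw]
      exact hP.near e n l ((hFm l).1 hl)
    have hb1 : |S1 - len k ^ 2| ≤ 14 * w := by
      have h1 : S1 - Q = ∑ l ∈ F, G e n l ^ 2 * (len l ^ 2 - Q) := by
        have h2 : ∑ l ∈ F, G e n l ^ 2 * (len l ^ 2 - Q) =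
            ∑ l ∈ F, G e n l ^ 2 * len l ^ 2 - (∑ l ∈ F, G e n l ^ 2) * Q := by
          rw [Finset.sum_mul, ← Finset.sum_sub_distrib]
          exact Finset.sum_congr rfl fun l _ => by ring
        rw [h2, hsq, ← hS1, one_mul]
      have h2 : |S1 - Q| ≤ 7 * w := by
        rw [h1]
        refine (Finset.abs_sum_le_sum_abs _ _).trans ?_
        have h3 : ∑ l ∈ F, |G e n l ^ 2 * (len l ^ 2 - Q)| ≤ ∑ l ∈ F, G e n l ^ 2 * (7 * w) := by
          refine Finset.sum_le_sum fun l hl => ?_
          rw [abs_mul, abs_of_nonneg (sq_nonneg (G e n l))]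
          exact mul_le_mul_of_nonneg_left (hnear l hl) (sq_nonneg _)
        rw [← Finset.sum_mul, hsq, one_mul] at h3
        exact h3
      have h3 := hnear k ((hFm k).2 hk)
      have h4 : S1 - len k ^ 2 = (S1 - Q) - (len k ^ 2 - Q) := by ring
      rw [h4]
      refine (abs_sub _ _).trans ?_
      linarith
    have hb2 : |κ * S2 + S3| ≤ rhu ν J G (u t) e n := by
      have h0 : rhu ν J G (u t) e n = ∑ l ∈ F, |G e n l| * (7 * (κ * w) * bnp G (u t) l
          + 2 * Real.pi * len l * cv (un (u t)) (un (u t)) l) := by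
        unfold rhu
        rw [hκ, hw]
        apply tsum_eq_sum
        intro l hl
        have : G e n l = 0 := by
          by_contra hc
          exact hl ((hFm l).2 hc)
        rw [this, abs_zero, zero_mul]
      rw [h0, hS2, hS3, Finset.mul_sum, ← Finset.sum_add_distrib]
      refine (Finset.abs_sum_le_sum_abs _ _).trans (Finset.sum_le_sum fun l hl => ?_)
      have h1 : κ * (G e n l * (len l ^ 2 - Q) * (cwp G (u t) l 2).re) + G e n l * (cv2 l).re =
          G e n l * (κ * (len l ^ 2 - Q) * (cwp G (u t) l 2).re + (cv2 l).re) := by ring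
      rw [h1, abs_mul]
      refine mul_le_mul_of_nonneg_left ((abs_add_le _ _).trans (add_le_add ?_ ?_)) (abs_nonneg _)
      · rw [abs_mul, abs_mul, abs_of_nonneg hκ0]
        have h2 := hnear l hl
        have h3 := re_le_bnp (G := G) (u t) l 2
        have h4 : κ * |len l ^ 2 - Q| ≤ 7 * (κ * w) := by
          have := mul_le_mul_of_nonneg_left h2 hκ0
          linarith
        exact mul_le_mul h4 h3 (abs_nonneg _) (by positivity)
      · refine (Complex.abs_re_le_norm _).trans ?_
        rw [hcv2]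
        have := conv_le hUs (hs.divfree t htI) (fun i => if i = 2 then 1 else 0) l
        simpa [Fin.sum_univ_three] using this
    have hbR : |R| ≤ 14 * (κ * w) * |x| + rhu ν J G (u t) e n := by
      have h1 : R = κ * x * (S1 - len k ^ 2) + (κ * S2 + S3) := by rw [hR]; ring
      rw [h1]
      refine (abs_add_le _ _).trans (add_le_add ?_ hb2)
      rw [abs_mul, abs_mul, abs_of_nonneg hκ0]
      have := mul_le_mul_of_nonneg_left hb1 (show 0 ≤ κ * |x| by positivity)
      linarith
    refine ⟨-(∑ i, conj (cwp G (u t) k i) * fr (conv (fun i y => u t y i) i) k).re +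
      G e n k * R * (cwp G (u t) k 2).re, ?_, ?_⟩
    · refine (abs_add_le _ _).trans ?_
      have h1 := conv_bnp (G := G) hs ht k
      have h2 : |G e n k * R * (cwp G (u t) k 2).re| ≤ |G e n k| * (14 * (κ * w) * |x|
          + rhu ν J G (u t) e n) * bnp G (u t) k := by
        rw [abs_mul, abs_mul]
        refine mul_le_mul (mul_le_mul_of_nonneg_left hbR (abs_nonneg _)) (re_le_bnp _ _ _)
          (abs_nonneg _) ?_
        exact mul_nonneg (abs_nonneg _) ((abs_nonneg _).trans hbR)
      refine (add_le_add h1 h2).trans (le_of_eq ?_)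
      rw [hκ, hw, hx]
      ring
    · have h1 := gen (G := G) hs ht hKs hK0 (hKk k hk) (γ := fun s => G e n k * am (G e n) (u s))
        (hA.const_mul (G e n k)) (fun s i => hcw s k hk i) (Or.inl hk2)
      refine h1.congr_deriv ?_
      rw [hA', ← hx, hR, ← hκ]
      ring

end Pool.Agent.N456.NSP
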